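import Pool.Agent.H97.PRP.Targets

/-!
# MP_e37c09_lc: the sections of the capturing set are small
-/

open Ordinal Cardinal Order Set
open scoped ZFSet

universe u

namespace Pool.Agent.H40.PRP

open _root_.HD HD.PRK HD.PRP

/-- DDT. The sections are small. -/
theorem pf_DDT (h0 : HD.PRK.T_TWO.{u}) (h1 : HD.PRK.T_L3B.{u}) (h2 : HD.PRP.T_FS.{u}) :
    HD.PRP.T_DDT.{u} := by
  classical
  intro δ hδ hA K hK hδK μ hμ hωμ G hG w
  obtain ⟨η, -, θ, j, hj⟩ := HD.All.xa δ hδ 0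
  obtain ⟨D, rfl, -, hDs, hD0⟩ := HD.All.xb δ η θ j hj
  by_cases hw : ∃ Y, Po μ K.ord G w Y
  · obtain ⟨Y0, hodw, a, haK, hlim, haw, -, -⟩ := hw
    have hods : OD (w ∩ a.toZFSet) := by
      refine OD.of_mem (P := fun v => v 0 ∈ w ∧ v 0 ∈ a.toZFSet) (DZ.and ?_ ?_) fun v => ?_
      · exact DZ.od (R := fun b v => v 0 ∈ b) hodw (DZ.mem 1 0)
      · exact DZ.od (R := fun b v => v 0 ∈ b) (OD.ordinal a) (DZ.mem 1 0)
      · rw [ZFSet.mem_inter]
    have hF : OD (Fs K.ord G (w ∩ a.toZFSet)) := by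
      refine OD.of_dz ?_
      exact DZ.od (R := fun b v => v 0 = Fs K.ord G b) hods
        ((h2 K.ord G hG).ren fun n => if n = 0 then 1 else 0)
    have hfew := h0 D.ord hδ hA K hK hδK μ hμ hωμ _ hF
    obtain ⟨ν, hν, e, he⟩ := h1 D K hDs hD0 μ _ hfew a haK hlim
      (ZFSet.sep (fun Y => ∀ n < a, PosX μ K.ord fun x =>
        Agr (Fs K.ord G (w ∩ a.toZFSet)) x n {b | b.toZFSet ∈ Y}) (ZFSet.powerset a.toZFSet))
      (fun Y hY => by
        rw [ZFSet.mem_sep, ZFSet.mem_powerset] at hY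
        exact hY)
    refine ⟨ν, Cardinal.ord_lt_ord.2 hν, e, fun Y hY => he Y ?_⟩
    unfold DD at hY
    rw [ZFSet.mem_sep] at hY
    obtain ⟨-, w', Y', hp, -, a', -, -, haw', hYa, hpos⟩ := hY
    obtain ⟨rfl, rfl⟩ := ZFSet.pair_injective hp
    have haa : a' = a := Ordinal.toZFSet_injective (haw'.trans haw.symm)
    subst haa
    rw [ZFSet.mem_sep, ZFSet.mem_powerset]
    exact ⟨hYa, hpos⟩
  · refine ⟨0, ?_, fun _ => ∅, fun Y hY => ?_⟩
    · exact Cardinal.ord_lt_ord.2 (lt_of_lt_of_le Cardinal.aleph0_pos hD0.le)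
    · exfalso
      unfold DD at hY
      rw [ZFSet.mem_sep] at hY
      obtain ⟨-, w', Y', hp, hPo⟩ := hY
      obtain ⟨rfl, rfl⟩ := ZFSet.pair_injective hp
      exact hw ⟨_, hPo⟩

end Pool.Agent.H40.PRP
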